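import Pool.Agent.Results.MP_dfae13_nt.LeadingTermLaw
import Pool.Agent.TH129.AVC.Ev

/-!
# The leading-term formula for abelian varieties as an exact law for numbers of points

Let `A` be an abelian variety over `ℚ` of dimension `d`, with the data of the file `LeadingTermLaw`
(symmetric projective embedding, polarisation `φ : A(ℚ) → A'(ℚ)`, polynomials `P_p` for the primes `p`
outside `S`). For `c > π/2` let `w(u) = e^{icu} / Γ(1 + u)` and

`Π_c(Y) = ∏_{p ∉ S, p ≤ e^Y} (#A(𝔽_p) / p^d) ^ w(log p / log Y)`,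

a finite product of complex powers of positive rational numbers. Let `F` be any continuation of `L(A, s)`
along the real axis to `s = 1`, and let `H` be any continuation along the real axis to `s = 2` of the
Euler product `∏_{p ∉ S} ∏_j (1 - α_{p,j}² p^{-s})⁻¹` with the SQUARES of the eigenvalues of Frobenius.
Let `m` and `l` be the order and the leading coefficient of `F` at `s = 1`, and `m₂` the order of `H` at
`s = 2`. It is shown, without any hypothesis on the zeros of `F` and `H`, that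

`Π_c(Y) ∼ 2^{m₂/2} e^{-mΛ(c)} l⁻¹ (log Y)^m`   (`Y → ∞`),

and that for every real `V > 0` the following are equivalent:

* `lim_{s → 1} (s - 1)^{-r} F(s) = V · R_A / (#A(ℚ)_tors · #A'(ℚ)_tors)`;
* `Π_c(Y) / N(Y)² → 2^{m₂/2} e^{-rΛ(c)} [A'(ℚ) : φ(A(ℚ))] / (2^r V_r² V #ker φ)` for some, or for all
  `c > π/2`, `N(Y)` the number of points of `A(ℚ)` of height at most `Y`.

With `V = #Ш(A) V_∞ V_bad` the first statement is the formula of the problem. The second statement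
contains only numbers of points (rational of bounded height, and over the fields `𝔽_p`), besides the
constant. For an elliptic curve `m₂ = 1` and `2^{m₂/2}` is the factor `√2` found by Goldfeld (1982) under
the assumption of an asymptotic formula for the products with `w = 1`, which implies the Riemann
hypothesis. In general, `H` being `L(Sym²) / L(∧²)` up to finitely many factors, by the conjecture of Tate
`m₂ = 2 rank NS(A) - rank End(A)` is to be expected.

Proof. The terms of order `k ≥ 3` of the logarithms contribute `o(1)` to the difference of the sum over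
the prime powers (weight `w(k log p / T)`, `T = log Y`) and the sum over the primes (weight
`w(log p / T)`). The terms of order `2` contribute `Q(T/2) - Q(T)`, where `Q(T)` is the smoothed sum of
`∑_j α_{p,j}² / (2p²)`; by the rotated law for `H` at `s = 2` this tends to `(m₂/2) log 2`.
-/

set_option autoImplicit false

namespace Pool.Agent.Results.MP_dfae13_nt.ExactCountingLaw

open Filter Topology Classical Polynomial
open Pool.Agent.Results.MP_dfae13_nt.LeadingTermLaw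

/-- The number `#A(𝔽_p)`: the number of the nonzero solutions of the equations over `ℤ/p`, divided by
`p - 1`. -/
noncomputable def pointsMod {n : ℕ} (X : Set (MvPolynomial (Fin n) ℤ)) (p : ℕ) : ℝ :=
  (Nat.card {u : Fin n → ZMod p // u ≠ 0 ∧ ∀ f ∈ X, MvPolynomial.aeval u f = 0} : ℝ) / (p - 1)

/-- The weight `w(u) = e^{icu} / Γ(1 + u)`. -/
noncomputable def weight (c u : ℝ) : ℂ :=
  Complex.exp ((c * u : ℝ) * Complex.I) / (Real.Gamma (1 + u) : ℝ)

/-- `Π_c(Y)`: the product over the primes `p ≤ e^Y` outside `S` of the powers of `#A(𝔽_p) / p^d` with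
exponents `w(log p / log Y)`. -/
noncomputable def localProduct {n : ℕ} (X : Set (MvPolynomial (Fin n) ℤ)) (d : ℕ) (S : Finset ℕ)
    (c Y : ℝ) : ℂ :=
  ∏ᶠ p ∈ {p : ℕ | p.Prime ∧ p ∉ S ∧ (p : ℝ) ≤ Real.exp Y},
    ((pointsMod X p / (p : ℝ) ^ d : ℝ) : ℂ) ^ weight c (Real.log p / Real.log Y)

/-- The Euler product `∏_{p ∉ S} (P_p(p^{-s/2}) P_p(-p^{-s/2}))⁻¹ = ∏_{p ∉ S} ∏_j (1 - α_j² p^{-s})⁻¹`. -/
noncomputable def squareFunction (S : Finset ℕ) (P : ℕ → ℤ[X]) (s : ℂ) : ℂ :=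
  ∏' p : {p : ℕ // p.Prime ∧ p ∉ S}, (Polynomial.aeval ((p.1 : ℂ) ^ (-s / 2)) (P p.1) *
    Polynomial.aeval (-(p.1 : ℂ) ^ (-s / 2)) (P p.1))⁻¹

theorem weight_eq (c u : ℝ) : weight c u = TH129.AVC.cw c u := by
  unfold weight TH129.AVC.cw W189.ML.om
  push_cast
  rw [div_eq_mul_inv]

section

variable {n d : ℕ} {X : Set (MvPolynomial (Fin n) ℤ)} {S : Finset ℕ} {P : ℕ → ℤ[X]}

theorem w1 (hP : ∀ p : ℕ, p.Prime → p ∉ S → IsLocalPoly X d p (P p)) :
    TH129.AVC.W1 (TH129.AVC.qr S) (realPoly S P) Set.univ (2 * d) where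
  const := fun p _ => (wt1 hP).const p
  deg := fun p _ => (wt1 hP).deg p
  root := fun p _ ρ hρ => (wt1 hP).root p ρ hρ

theorem pointsMod_eq {p : ℕ} (hp : p.Prime) (h : IsLocalPoly X d p (P p)) :
    ∃ α : Fin (2 * d) → ℂ, (∀ j, ‖α j‖ = √ (p : ℝ)) ∧
      (∀ z : ℂ, Polynomial.aeval z (P p) = ∏ j, (1 - α j * z)) ∧
      ∏ j, (1 - α j) = (pointsMod X p : ℂ) := by
  obtain ⟨α, h1, h2, h3⟩ := h
  refine ⟨α, h1, h2, ?_⟩
  have : Fact p.Prime := ⟨hp⟩
  have h4 := h3 (ZMod p) 1 (by rw [pow_one]; exact Nat.card_zmod p)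
  have h5 : solutions X (ZMod p) = Nat.card {u : Fin n → ZMod p // u ≠ 0 ∧
    ∀ f ∈ X, MvPolynomial.aeval u f = 0} := rfl
  rw [h5, pow_one] at h4
  simp only [pow_one] at h4
  have h6 : (p : ℂ) - 1 ≠ 0 := by
    intro h7
    have h8 : (p : ℂ) = 1 := by linear_combination h7
    have h9 : p = 1 := by exact_mod_cast h8
    exact hp.one_lt.ne' h9
  unfold pointsMod
  push_cast
  rw [h4]
  field_simp

theorem loc_eq (hP : ∀ p : ℕ, p.Prime → p ∉ S → IsLocalPoly X d p (P p)) (p : TH129.AVC.Pr S) :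
    0 < pointsMod X p.1 / (p.1 : ℝ) ^ d ∧
    TH129.AVC.loc (TH652.COL.cq (TH129.AVC.qr S) (realPoly S P) 1) p =
      -Real.log (pointsMod X p.1 / (p.1 : ℝ) ^ d) := by
  obtain ⟨α, h1, h2, h3⟩ := pointsMod_eq p.2.1 (hP p.1 p.2.1 p.2.2)
  have hw := wt1 hP
  have hq : 0 < TH129.AVC.qr S p := by linarith [TH129.AVC.qr_two_le p]
  have hr := fun (ρ : ℂ) (hρ : ((realPoly S P p).map (algebraMap ℝ ℂ)).IsRoot ρ) => hw.root1 p hρ
  have h4 := TH129.AVC.loc_eq (q := TH129.AVC.qr S) (B := realPoly S P) (s₀ := 1) hq (hw.const p) hr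
  have h5 := TH129.AVC.eval_pos (q := TH129.AVC.qr S) (B := realPoly S P) (s₀ := 1) hq
    (hw.const p) hr
  have hN0 : 0 ≤ pointsMod X p.1 := by
    unfold pointsMod
    have : (2 : ℝ) ≤ p.1 := TH129.AVC.qr_two_le p
    have h8 : (0 : ℝ) ≤ p.1 - 1 := by linarith
    positivity
  have h6 := TH129.AVC.eval_inv hq (B := realPoly S P p) h1
    (fun z => by rw [realPoly_eval, h2]) h3 hN0 h5
  have h7 : TH129.AVC.qr S p = (p.1 : ℝ) := rfl
  rw [h6, h7] at h4 h5
  exact ⟨h5, h4⟩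

theorem localProduct_eq (hP : ∀ p : ℕ, p.Prime → p ∉ S → IsLocalPoly X d p (P p)) (c Y : ℝ) :
    localProduct X d S c Y = Complex.exp (-TH129.AVC.pfin (TH129.AVC.qr S)
      (TH652.COL.cq (TH129.AVC.qr S) (realPoly S P) 1) Set.univ c Y) := by
  have hA : {v : TH129.AVC.Pr S | v ∈ Set.univ ∧ TH129.AVC.qr S v ≤ Real.exp Y}.Finite :=
    (TH129.AVC.qr_finite (Real.exp Y)).subset fun v hv => hv.2
  unfold localProduct TH129.AVC.pfin
  rw [← finsum_mem_neg_distrib _ hA, TH129.AVC.exp_finsum hA]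
  symm
  refine finprod_mem_eq_of_bijOn (fun p => p.1) ⟨?_, ?_, ?_⟩ (fun p _ => ?_)
  · intro p hp
    exact ⟨p.2.1, p.2.2, hp.2⟩
  · intro p _ q _ h
    exact Subtype.ext h
  · rintro p ⟨h1, h2, h3⟩
    exact ⟨⟨p, h1, h2⟩, ⟨Set.mem_univ _, h3⟩, rfl⟩
  · obtain ⟨h1, h2⟩ := loc_eq hP p
    rw [TH129.AVC.cpow_eq_exp h1, h2, weight_eq]
    congr 1
    have h7 : TH129.AVC.qr S p = (p.1 : ℝ) := rfl
    rw [h7]
    push_cast
    ring

theorem squareFunction_eq (S : Finset ℕ) (P : ℕ → ℤ[X]) (s : ℂ) :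
    squareFunction S P s =
      TH652.COL.LF (TH129.AVC.qr S) (TH129.AVC.B2 Set.univ (realPoly S P)) s := by
  rw [TH129.AVC.LF_B2 _ (fun p => by linarith [TH129.AVC.qr_two_le p])]
  unfold squareFunction
  refine tprod_congr fun p => ?_
  rw [realPoly_eval, realPoly_eval]
  unfold TH129.AVC.qr
  push_cast
  rfl

/-- comparison of the products over the primes and the sums over the prime powers -/
theorem close (hP : ∀ p : ℕ, p.Prime → p ∉ S → IsLocalPoly X d p (P p))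
    {H : ℂ → ℂ} (hmer : ∀ x : ℝ, 2 ≤ x → MeromorphicAt H (x : ℂ)) {σ : ℝ}
    (hH : ∀ s : ℂ, σ < s.re → H s = squareFunction S P s) :
    ∃ m₂ : ℤ, meromorphicOrderAt H 2 = m₂ ∧ ∀ c : ℝ, Real.pi / 2 < c →
      Tendsto (fun Y : ℝ => Complex.exp (rotSum S P c Y) / localProduct X d S c Y) atTop
        (𝓝 (((2 : ℝ) ^ ((m₂ : ℝ) / 2) : ℝ) : ℂ)⁻¹) := by
  have hw := wt1 hP
  have hw1 := w1 hP
  have E := hw.cdata
  have hH' : ∀ s : ℂ, σ < s.re → H s =
      TH652.COL.LF (TH129.AVC.qr S) (TH129.AVC.B2 Set.univ (realPoly S P)) s := fun s hs => by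
    rw [hH s hs, squareFunction_eq]
  obtain ⟨m₂, hm₂, h⟩ := TH129.AVC.law_sq (hw1.ldata2 TH129.AVC.qr_two_le
    (fun _ hσ => TH129.AVC.qr_summable hσ)) hmer hH'
  refine ⟨m₂, hm₂, fun c hc => ?_⟩
  obtain ⟨r₀, hO⟩ := h c hc
  have hsq := hw1.sqc E (fun _ _ => rfl)
  have h1 := hsq.prime_law E TH129.AVC.qr_finite (le_refl Set.univ) hO
  have h2 := TH129.AVC.lsum_fin E TH129.AVC.qr_finite c
  have h3 := (Complex.continuous_exp.tendsto _).comp (((h1.sub h2).sub
    (tendsto_const_nhds (x := (TH129.AVC.kap (TH652.COL.cq (TH129.AVC.qr S) (realPoly S P) 1)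
      Set.univ m₂ : ℂ)))))
  have hkap : TH129.AVC.kap (TH652.COL.cq (TH129.AVC.qr S) (realPoly S P) 1) Set.univ m₂ =
      (m₂ : ℝ) / 2 * Real.log 2 := by
    unfold TH129.AVC.kap
    simp
  have e1 : Complex.exp (0 - 0 - (TH129.AVC.kap (TH652.COL.cq (TH129.AVC.qr S)
      (realPoly S P) 1) Set.univ m₂ : ℂ)) = (((2 : ℝ) ^ ((m₂ : ℝ) / 2) : ℝ) : ℂ)⁻¹ := by
    rw [sub_zero, zero_sub, hkap, Complex.exp_neg, Real.rpow_def_of_pos two_pos,
      Complex.ofReal_exp, mul_comm (Real.log 2)]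
  rw [e1] at h3
  refine h3.congr fun Y => ?_
  simp only [Function.comp_apply]
  rw [localProduct_eq hP, ← Complex.exp_sub, rotSum_eq]
  congr 1
  have e2 : TH652.COL.lsum (TH129.AVC.qr S) (realPoly S P) 1 c (Real.log Y) =
      -W187.UR.cmean (W189.LC.fr (TH129.AVC.qr S))
        (TH652.COL.cq (TH129.AVC.qr S) (realPoly S P) 1) c (Real.log Y) := by
    have e0 : TH652.COL.fq (TH129.AVC.qr S) 1 = W189.LC.fr (TH129.AVC.qr S) := by
      funext x
      unfold TH652.COL.fq W189.LC.fr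
      ring
    rw [TH652.COL.lsum_eq _ _ one_pos, e0, one_mul]
  rw [e2]
  ring

end

/-- **The leading-term formula for abelian varieties is an exact law for numbers of points.** -/
theorem result (n d : ℕ) (X : Set (MvPolynomial (Fin n) ℤ)) (S : Finset ℕ) (P : ℕ → ℤ[X])
    (hP : ∀ p : ℕ, p.Prime → p ∉ S → IsLocalPoly X d p (P p))
    (A A' : Type) [AddCommGroup A] [AddCommGroup A'] (hA : AddGroup.FG A) (hA' : AddGroup.FG A')
    (e : A ≃ points X) (pair : A →+ A' →+ ℝ) (φ : A →+ A')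
    (hsym : ∀ x y : A, pair x (φ y) = pair y (φ x))
    (hht : ∃ C : ℝ, ∀ x : A, |2 * (e x).1.logHeight - pair x (φ x)| ≤ C)
    (r : ℕ) (a : Fin r → A) (a' : Fin r → A') (ha : IsBasis a) (ha' : IsBasis a')
    (F : ℂ → ℂ) (hmer : ∀ x : ℝ, 1 ≤ x → MeromorphicAt F (x : ℂ)) (σ : ℝ)
    (hF : ∀ s : ℂ, σ < s.re → F s = LFunction S P s)
    (H : ℂ → ℂ) (hmerH : ∀ x : ℝ, 2 ≤ x → MeromorphicAt H (x : ℂ)) (σ' : ℝ)
    (hH : ∀ s : ℂ, σ' < s.re → H s = squareFunction S P s) :
    ∃ m m₂ : ℤ, meromorphicOrderAt F 1 = m ∧ meromorphicOrderAt H 2 = m₂ ∧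
    meromorphicTrailingCoeffAt F 1 ≠ 0 ∧
    (∀ c : ℝ, Real.pi / 2 < c →
      Tendsto (fun Y : ℝ => localProduct X d S c Y / (Real.log Y : ℂ) ^ m) atTop
        (𝓝 (((2 : ℝ) ^ ((m₂ : ℝ) / 2) : ℝ) * Complex.exp (-(m * Lam c)) /
          meromorphicTrailingCoeffAt F 1))) ∧
    0 < regulator pair a a' ∧ 0 < Nat.card φ.ker ∧ φ.range.index ≠ 0 ∧
    ∀ V : ℝ, 0 < V → List.TFAE [
      Tendsto (fun s : ℂ => F s / (s - 1) ^ r) (𝓝[≠] 1)
        (𝓝 ((V * regulator pair a a' / (tors A * tors A') : ℝ) : ℂ)),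
      ∃ c : ℝ, Real.pi / 2 < c ∧
        Tendsto (fun Y : ℝ => localProduct X d S c Y / (pointsUpTo X Y : ℂ) ^ 2) atTop
          (𝓝 (((2 : ℝ) ^ ((m₂ : ℝ) / 2) : ℝ) * Complex.exp (-(r * Lam c)) /
            (2 ^ r * ballVol r ^ 2 * (V * Nat.card φ.ker / φ.range.index) : ℝ))),
      ∀ c : ℝ, Real.pi / 2 < c →
        Tendsto (fun Y : ℝ => localProduct X d S c Y / (pointsUpTo X Y : ℂ) ^ 2) atTop
          (𝓝 (((2 : ℝ) ^ ((m₂ : ℝ) / 2) : ℝ) * Complex.exp (-(r * Lam c)) /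
            (2 ^ r * ballVol r ^ 2 * (V * Nat.card φ.ker / φ.range.index) : ℝ)))] := by
  obtain ⟨m₂, hm₂, hclose⟩ := close hP hmerH hH
  obtain ⟨-, hreg, hker, hidx, htfae⟩ := LeadingTermLaw.result n d X S P hP A A' hA hA' e pair φ
    hsym hht r a a' ha ha' F hmer σ hF
  have hw := wt1 hP
  have hF' : ∀ s : ℂ, σ < s.re → F s = TH652.COL.LF (TH129.AVC.qr S) (realPoly S P) s := by
    intro s hs
    rw [hF s hs, LFunction_eq]
  set t : ℂ := (((2 : ℝ) ^ ((m₂ : ℝ) / 2) : ℝ) : ℂ) with ht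
  have ht0 : t ≠ 0 := by
    rw [ht]
    have : (0 : ℝ) < (2 : ℝ) ^ ((m₂ : ℝ) / 2) := by positivity
    exact_mod_cast this.ne'
  have hti : t⁻¹ ≠ 0 := inv_ne_zero ht0
  have hprod0 : ∀ c Y : ℝ, localProduct X d S c Y ≠ 0 := fun c Y => by
    rw [localProduct_eq hP]
    exact Complex.exp_ne_zero _
  -- transfer of limits
  have htrans : ∀ c : ℝ, Real.pi / 2 < c → ∀ (g : ℝ → ℂ) (l : ℂ),
      (Tendsto (fun Y : ℝ => Complex.exp (rotSum S P c Y) / g Y) atTop (𝓝 l) ↔
        Tendsto (fun Y : ℝ => localProduct X d S c Y / g Y) atTop (𝓝 (t * l))) := by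
    intro c hc g l
    have h1 := hclose c hc
    constructor
    · intro h2
      have h3 := h2.div h1 hti
      rw [div_inv_eq_mul, mul_comm l t] at h3
      refine h3.congr fun Y => ?_
      simp only [Pi.div_apply]
      have h4 := Complex.exp_ne_zero (rotSum S P c Y)
      have h5 := hprod0 c Y
      field_simp
    · intro h2
      have h3 := h2.mul h1
      rw [mul_comm t l, mul_assoc, mul_inv_cancel₀ ht0, mul_one] at h3
      refine h3.congr fun Y => ?_
      have h5 := hprod0 c Y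
      field_simp
  obtain ⟨m, hm, hc0, -⟩ := TH129.AVC.exp_lim hw.ldata hmer hF'
    (show Real.pi / 2 < Real.pi by linarith [Real.pi_pos])
  rw [Complex.ofReal_one] at hm hc0
  refine ⟨m, m₂, hm, hm₂, hc0, ?_, hreg, hker, hidx, ?_⟩
  · intro c hc
    obtain ⟨m', hm', -, hlim⟩ := TH129.AVC.exp_lim hw.ldata hmer hF' hc
    rw [Complex.ofReal_one] at hm' hlim
    have hmm : m' = m := by
      rw [hm] at hm'
      exact_mod_cast hm'.symm
    subst hmm
    have hlim2 : Tendsto (fun Y : ℝ => Complex.exp (rotSum S P c Y) / (Real.log Y : ℂ) ^ m') atTop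
        (𝓝 (Complex.exp (-(m' * Lam c)) / meromorphicTrailingCoeffAt F 1)) := by
      have h1 := hlim.comp Real.tendsto_log_atTop
      have h2 := (Complex.continuous_exp.tendsto 0).comp (TH129.AVC.lsum_fin hw.cdata
        TH129.AVC.qr_finite c)
      rw [Complex.exp_zero] at h2
      have h3 := h1.div h2 one_ne_zero
      rw [div_one] at h3
      refine h3.congr fun Y => ?_
      simp only [Pi.div_apply, Function.comp_apply]
      rw [div_right_comm, ← Complex.exp_sub, rotSum_eq]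
      congr 2
      ring
    have h4 := (htrans c hc _ _).1 hlim2
    rw [mul_div_assoc]
    exact h4
  · intro V hV
    have h1 := htfae V hV
    have h13 := h1.out 0 2
    have h14 := h1.out 0 3
    tfae_have 1 → 3 := by
      intro h c hc
      rw [mul_div_assoc]
      exact (htrans c hc _ _).1 (h14.1 h c hc)
    tfae_have 3 → 2 := fun h => ⟨Real.pi, by linarith [Real.pi_pos], h Real.pi
      (by linarith [Real.pi_pos])⟩
    tfae_have 2 → 1 := by
      rintro ⟨c, hc, h⟩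
      rw [mul_div_assoc] at h
      exact h13.2 ⟨c, hc, (htrans c hc _ _).2 h⟩
    tfae_finish

end Pool.Agent.Results.MP_dfae13_nt.ExactCountingLaw
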