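import Mathlib
import Pool.Agent.TH344.TJ.Main2

/-!
# Twists of hyperelliptic Jacobians by numbers with many or few prime factors

Let `g ≥ 1`, let `a_0, ..., a_(2g)` be distinct integers and let `J` be the Jacobian of the curve
`y² = ∏ (x - a_i)` of genus `g` over `ℚ`. For an integer `e ≠ 0` let `J_e` be the quadratic twist of
`J` by `ℚ(√e)`. This is the Jacobian of `e y² = ∏ (x - a_i)`, i.e. of `y² = ∏ (x - e a_i)`. Let
`D = c G_1 ... G_r`, `r ≥ 1`, be a nonzero constant times a product of different irreducible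
polynomials with integer coefficients, of any degrees, and let `ω(n)` be the number of the primes
dividing `n`. For every real `lam > 0` and all `k` the sum of `lam ^ ω(D(t)) * # Sel₂(J_(D(t))) ^ k`
over the integers `t` of `(N, N + M]` is at most `C M (log M) ^ ((lam - 1) r)`, uniformly for
`|N| ≤ M ^ L`. This is the order of the sum of `lam ^ ω(D(t))`. So the 2-Selmer groups do not grow if
the numbers `D(t)` have many prime factors: among the `t` with `ω(D(t)) ≥ lam r log log M`
(`lam ≥ 1`; or `≤`, `lam < 1`) at most `C_A M / ((log M) ^ (r (lam log lam - lam + 1)) A ^ n)`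
have a 2-Selmer group of order at least `2 ^ n`, for every real number `A`; the number of all the `t`
with this property is of the order `M / (log M) ^ (r (lam log lam - lam + 1))` up to factors
`log log M`.

The descent map. Every class of divisors of degree zero on `X : y² = ∏ (x - a_i)` over an infinite
field `K` contains a divisor `D_(u,v) = ∑ (x_j, v (x_j)) - deg u · ∞`, `x_j` the zeros of the monic
polynomial `u`, where `u` divides `∏ (x - a_i) - v²` and `u (a_i) ≠ 0` for all `i` (Mumford
representation). The map `J(K) / 2 J(K) → (K^* / K^*²)^(2g+1)` which sends this class to the family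
of the classes of `(-1) ^ deg u * u (a_i)` is injective, and it is induced by the isomorphism of
`J[2]` with the group of the families of signs with product one, indexed by the `a_i`. So the
2-Selmer group of `J` is the group of the families of classes in `ℚ^* / ℚ^*²`, that are in the image
over `ℝ` and over `ℚ_p` for all primes `p`. The classes of `ℚ^* / ℚ^*²` are represented by
squarefree integers.
-/

namespace Pool.Agent.Results.MP_dfae13_nt.JacobianWeightedTwists

open Polynomial Finset

/-- The family of the classes of the integers `d i` in `K^* / K^*²` is in the image of the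
Jacobian of `y² = ∏ (x - a i)` over `K`: there are a monic polynomial `u` and a polynomial `v` with
`u ∣ ∏ (x - a i) - v²`, such that `u (a i) ≠ 0` and `(-1) ^ deg u * u (a i) * d i` is a square for
all `i`. -/
def Image (K : Type) [Field K] {n : ℕ} (a d : Fin n → ℤ) : Prop :=
  ∃ u v : K[X], u.Monic ∧ u ∣ (∏ i, (X - C ((a i : ℤ) : K))) - v ^ 2 ∧
    ∀ i, u.eval ((a i : ℤ) : K) ≠ 0 ∧
      IsSquare ((-1) ^ u.natDegree * u.eval ((a i : ℤ) : K) * ((d i : ℤ) : K))

/-- The image of the Mordell-Weil group `J(ℚ)`, as a set of families of squarefree integers. It has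
as many elements as `J(ℚ) / 2 J(ℚ)`. -/
def MW {n : ℕ} (a : Fin n → ℤ) : Set (Fin n → ℤ) := {d | (∀ i, Squarefree (d i)) ∧ Image ℚ a d}

/-- The 2-Selmer group of the Jacobian `J` of `y² = ∏ (x - a i)`, as a set of families of
squarefree integers. The quotient of this group by `MW a` is `Ш(J)[2]`. -/
def Sel2 {n : ℕ} (a : Fin n → ℤ) : Set (Fin n → ℤ) :=
  {d | (∀ i, Squarefree (d i)) ∧ Image ℝ a d ∧ ∀ (p : ℕ) [Fact p.Prime], Image ℚ_[p] a d}

/-- the Weierstrass points of the quadratic twist by `d` of `y² = ∏ (x - a i)` -/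
def twist {n : ℕ} (d : ℤ) (a : Fin n → ℤ) : Fin n → ℤ := fun i => d * a i

/-- The polynomials `G l` are irreducible, not constant and not associated with each other. -/
structure Different {r : ℕ} (G : Fin r → ℤ[X]) : Prop where
  irreducible : ∀ l, Irreducible (G l)
  nonconstant : ∀ l, 0 < (G l).natDegree
  different : ∀ l m, l ≠ m → ¬ Associated (G l) (G m)

/-- the number of the primes dividing `n` -/
def om (n : ℤ) : ℕ := n.natAbs.primeFactors.card

open Classical in
/-- the integers `t` of the interval `(N, N + M]` with `D t ≠ 0` and `P t` -/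
noncomputable def arguments (D : ℤ[X]) (N : ℤ) (M : ℕ) (P : ℤ → Prop) : Finset ℤ :=
  (Ioc N (N + (M : ℤ))).filter (fun t => D.eval t ≠ 0 ∧ P t)

/-- `D t` has at least `lam r log log M` prime factors if `lam ≥ 1`, and at most this number if
`lam < 1` -/
def Untypical (D : ℤ[X]) (lam : ℝ) (r M : ℕ) (t : ℤ) : Prop :=
  (1 ≤ lam → lam * r * Real.log (Real.log M) ≤ om (D.eval t)) ∧
    (lam < 1 → om (D.eval t) ≤ lam * r * Real.log (Real.log M))

lemma mem_arguments {D : ℤ[X]} {N : ℤ} {M : ℕ} {P : ℤ → Prop} {t : ℤ} :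
    t ∈ arguments D N M P ↔ t ∈ Ioc N (N + (M : ℤ)) ∧ D.eval t ≠ 0 ∧ P t := by
  classical
  unfold arguments
  rw [mem_filter]

/-- the weight on the untypical arguments -/
lemma weight_ge {D : ℤ[X]} {lam : ℝ} (hlam : 0 < lam) {r M : ℕ} (hM : 2 ≤ M) {t : ℤ}
    (h : Untypical D lam r M t) :
    (Real.log M) ^ (r * (lam * Real.log lam)) ≤ lam ^ om (D.eval t) := by
  have hl : 0 < Real.log M := Real.log_pos (by exact_mod_cast hM)
  have e1 : (Real.log M) ^ (r * (lam * Real.log lam)) =
      Real.exp (Real.log lam * (lam * r * Real.log (Real.log M))) := by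
    rw [Real.rpow_def_of_pos hl]
    congr 1
    ring
  have e2 : lam ^ om (D.eval t) = Real.exp (Real.log lam * (om (D.eval t) : ℝ)) := by
    rw [mul_comm, ← Real.log_pow, Real.exp_log (by positivity)]
  rw [e1, e2]
  apply Real.exp_le_exp.2
  rcases le_or_gt 1 lam with h1 | h1
  · exact mul_le_mul_of_nonneg_left (h.1 h1) (Real.log_nonneg h1)
  · exact mul_le_mul_of_nonpos_left (h.2 h1) (Real.log_nonpos hlam.le h1.le)

/-- **Theorem.** Let `g ≥ 1` and let `a` be a family of `2 g + 1` distinct integers. For every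
integer `e ≠ 0` the 2-Selmer group `Sel2 (twist e a)` of the Jacobian `J_e` of `y² = ∏ (x - e a_i)`
is finite and contains the (nonempty) image `MW (twist e a)` of `J_e(ℚ) / 2 J_e(ℚ)`. Let
`D = c G_1 ... G_r`, `c` a nonzero integer and `G` a family of `r ≥ 1` different irreducible
polynomials, and let `lam > 0`. For all `k`, `L` there is `C` such that the sum of
`lam ^ ω(D t) * (# Sel2 (twist (D t) a)) ^ k` over the integers `t` of `(N, N + M]` with `D t ≠ 0` is
at most `C * M * (log M) ^ ((lam - 1) * r)`, for all `M ≥ 2` and all `N`, `|N| ≤ M ^ L`. For every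
real number `A ≥ 0` and every `L` there is `C` such that for all `n`, all `M ≥ 2` and all `N`,
`|N| ≤ M ^ L`, the number of the `t` of `(N, N + M]` with `D t ≠ 0`,
`ω(D t) ≥ lam * r * log log M` (if `lam ≥ 1`; `≤` if `lam < 1`) and `# Sel2 ≥ 2 ^ n` is at most
`C * M / ((log M) ^ (r * (lam * log lam - lam + 1)) * A ^ n)`; the same holds for `# MW ≥ 2 ^ n` and
for `# Sel2 / # MW ≥ 2 ^ n`, where `# Sel2 / # MW` is the order of `Ш(J_(D t))[2]`. -/
theorem result (g : ℕ) (hg : 1 ≤ g) (a : Fin (2 * g + 1) → ℤ) (ha : Function.Injective a) :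
    (∀ e : ℤ, e ≠ 0 → (Sel2 (twist e a)).Finite ∧ MW (twist e a) ⊆ Sel2 (twist e a) ∧
      (MW (twist e a)).Nonempty) ∧
    ∀ (r : ℕ) (G : Fin r → ℤ[X]) (c : ℤ) (D : ℤ[X]) (lam : ℝ), 0 < r → Different G → c ≠ 0 →
      D = C c * ∏ l, G l → 0 < lam →
      (∀ k L : ℕ, ∃ C : ℝ, ∀ (N : ℤ) (M : ℕ), 2 ≤ M → |N| ≤ (M : ℤ) ^ L →
        ∑ t ∈ arguments D N M (fun _ => True),
          lam ^ om (D.eval t) * ((Sel2 (twist (D.eval t) a)).ncard : ℝ) ^ k ≤
            C * (M * (Real.log M) ^ ((lam - 1) * r))) ∧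
      ∀ (A : ℝ) (L : ℕ), 0 ≤ A → ∃ C : ℝ, ∀ (n : ℕ) (N : ℤ) (M : ℕ), 2 ≤ M →
        |N| ≤ (M : ℤ) ^ L →
        A ^ n * ((arguments D N M (fun t => Untypical D lam r M t ∧
          2 ^ n ≤ (Sel2 (twist (D.eval t) a)).ncard)).card : ℝ) ≤
            C * (M / (Real.log M) ^ (r * (lam * Real.log lam - lam + 1))) ∧
        A ^ n * ((arguments D N M (fun t => Untypical D lam r M t ∧
          2 ^ n ≤ (MW (twist (D.eval t) a)).ncard)).card : ℝ) ≤
            C * (M / (Real.log M) ^ (r * (lam * Real.log lam - lam + 1))) ∧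
        A ^ n * ((arguments D N M (fun t => Untypical D lam r M t ∧
          2 ^ n * (MW (twist (D.eval t) a)).ncard ≤
            (Sel2 (twist (D.eval t) a)).ncard)).card : ℝ) ≤
            C * (M / (Real.log M) ^ (r * (lam * Real.log lam - lam + 1))) := by
  classical
  have hodd : Odd (2 * g + 1) := ⟨g, rfl⟩
  have hfin : ∀ d : ℤ, d ≠ 0 → (Sel2 (twist d a)).Finite ∧ MW (twist d a) ⊆ Sel2 (twist d a) ∧
      (MW (twist d a)).Nonempty := by
    intro d hd
    have hinj : Function.Injective (twist d a) := by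
      intro i j hij
      exact ha (mul_left_cancel₀ hd hij)
    refine ⟨Pool.Agent.TH344.JG.seljf hodd hinj, ?_, ?_⟩
    · rintro e ⟨h1, h2⟩
      exact ⟨h1, Pool.Agent.TH344.JG.LocJ_map (algebraMap ℚ ℝ) h2, fun p _ =>
        Pool.Agent.TH344.JG.LocJ_map (algebraMap ℚ ℚ_[p]) h2⟩
    · exact ⟨fun _ => 1, fun _ => squarefree_one, Pool.Agent.TH344.JG.LocJ_one ℚ _⟩
  refine ⟨hfin, fun r G c D lam hr hG hc hD hlam => ?_⟩
  have hmom : ∀ k L : ℕ, ∃ C : ℝ, ∀ (N : ℤ) (M : ℕ), 2 ≤ M → |N| ≤ (M : ℤ) ^ L →
      ∑ t ∈ arguments D N M (fun _ => True),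
        lam ^ om (D.eval t) * ((Sel2 (twist (D.eval t) a)).ncard : ℝ) ^ k ≤
          C * (M * (Real.log M) ^ ((lam - 1) * r)) := by
    intro k L
    obtain ⟨C, -, hC⟩ := Pool.Agent.TH344.TJ.w_of (Pool.Agent.TH344.TJ.elm hg a ha)
      (Pool.Agent.TH344.TJ.awr hg a ha)
      (⟨hG.irreducible, hG.nonconstant, hG.different⟩ : Pool.Agent.TH841.PT.Irr G) hr hc lam
      hlam k L
    refine ⟨C, fun N M hM hN => ?_⟩
    refine le_trans (le_of_eq ?_) (hC N M hM hN)
    rw [← hD]
    apply sum_congr _ fun _ _ => rfl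
    ext t
    rw [mem_filter, mem_arguments, and_true]
  refine ⟨hmom, fun A L hA => ?_⟩
  obtain ⟨k, hk⟩ := pow_unbounded_of_one_lt A (one_lt_two : (1 : ℝ) < 2)
  obtain ⟨C, hC⟩ := hmom k L
  refine ⟨C, fun n N M hM hN => ?_⟩
  have h0 := hC N M hM hN
  have hl : 0 < Real.log M := Real.log_pos (by exact_mod_cast hM)
  set V : ℝ := (Real.log M) ^ (r * (lam * Real.log lam)) with hV
  have hV0 : 0 < V := Real.rpow_pos_of_pos hl _
  have hVe : C * (M * (Real.log M) ^ ((lam - 1) * r)) =
      V * (C * (M / (Real.log M) ^ (r * (lam * Real.log lam - lam + 1)))) := by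
    have h1 : (Real.log M) ^ ((lam - 1) * r) =
        V / (Real.log M) ^ (r * (lam * Real.log lam - lam + 1)) := by
      rw [hV, ← Real.rpow_sub hl]
      congr 1
      ring
    rw [h1]
    ring
  have key : ∀ P : ℤ → Prop, (∀ t, D.eval t ≠ 0 → P t →
      (2 : ℝ) ^ n ≤ ((Sel2 (twist (D.eval t) a)).ncard : ℝ)) →
      A ^ n * ((arguments D N M (fun t => Untypical D lam r M t ∧ P t)).card : ℝ) ≤
        C * (M / (Real.log M) ^ (r * (lam * Real.log lam - lam + 1))) := by
    intro P hP
    have h1 : V * (A ^ n *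
        ((arguments D N M (fun t => Untypical D lam r M t ∧ P t)).card : ℝ)) ≤
        C * (M * (Real.log M) ^ ((lam - 1) * r)) := by
      refine le_trans ?_ h0
      calc V * (A ^ n * ((arguments D N M (fun t => Untypical D lam r M t ∧ P t)).card : ℝ))
          = ∑ t ∈ arguments D N M (fun t => Untypical D lam r M t ∧ P t), V * A ^ n := by
            rw [sum_const, nsmul_eq_mul]
            ring
        _ ≤ ∑ t ∈ arguments D N M (fun t => Untypical D lam r M t ∧ P t),
            lam ^ om (D.eval t) * ((Sel2 (twist (D.eval t) a)).ncard : ℝ) ^ k := by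
            apply sum_le_sum
            intro t ht
            rw [mem_arguments] at ht
            apply mul_le_mul (weight_ge hlam hM ht.2.2.1) _ (pow_nonneg hA n) (by positivity)
            calc A ^ n ≤ ((2 : ℝ) ^ k) ^ n := pow_le_pow_left₀ hA hk.le n
              _ = ((2 : ℝ) ^ n) ^ k := by rw [← pow_mul, ← pow_mul, mul_comm]
              _ ≤ _ := pow_le_pow_left₀ (by positivity) (hP t ht.2.1 ht.2.2.2) k
        _ ≤ ∑ t ∈ arguments D N M (fun _ => True),
            lam ^ om (D.eval t) * ((Sel2 (twist (D.eval t) a)).ncard : ℝ) ^ k := by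
            apply sum_le_sum_of_subset_of_nonneg
            · intro t ht
              rw [mem_arguments] at ht ⊢
              exact ⟨ht.1, ht.2.1, trivial⟩
            · intro t _ _
              positivity
    rw [hVe] at h1
    exact le_of_mul_le_mul_left h1 hV0
  refine ⟨key _ fun t _ h => by exact_mod_cast h, key _ fun t ht h => ?_, key _ fun t ht h => ?_⟩
  · obtain ⟨h4, h5, -⟩ := hfin _ ht
    exact_mod_cast h.trans (Set.ncard_le_ncard h5 h4)
  · obtain ⟨h4, h5, h6⟩ := hfin _ ht
    have h7 : 0 < (MW (twist (D.eval t) a)).ncard := (Set.ncard_pos (h4.subset h5)).2 h6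
    exact_mod_cast (Nat.le_mul_of_pos_right _ h7).trans h

end Pool.Agent.Results.MP_dfae13_nt.JacobianWeightedTwists
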