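import Pool.Agent.TH129.AVC.Rat
import Pool.Agent.TH129.AVC.Lead
import Pool.Agent.TH129.AVC.Pair
import Pool.Agent.TH129.AVC.Ht

/-!
# The leading-term formula for abelian varieties without rank, regulator and torsion

Let `A` be an abelian variety over `ℚ` of dimension `d`, `A'` its dual, `S` a finite set of primes such
that `A` has good reduction outside `S`, and `L(A, s) = ∏_{p ∉ S} P_p(p^{-s})⁻¹` (the notation of the
problem). Let `A` be embedded in a projective space by a symmetric line bundle, `X` homogeneous equations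
of `A` with integral coefficients, `h` the logarithmic height of the projective space, and
`φ : A(ℚ) → A'(ℚ)` the homomorphism of the line bundle, so that `2 h(P) = ⟨P, φ(P)⟩ + O(1)` for the
canonical pairing `⟨ , ⟩`. Let `Z(s) = ∑_P e^{-s h(P)}`, the sum over all `P` in `A(ℚ)`, `N(Y)` the
number of `P` with `h(P) ≤ log Y`, and let `F` be any continuation of `L(A, s)` to `s = 1` along the real
axis (meromorphic at the real points `x ≥ 1`).

It is shown that for every real `V > 0` the following are equivalent: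

* `lim_{s → 1} (s - 1)^{-r} F(s) = V · R_A / (#A(ℚ)_tors · #A'(ℚ)_tors)`;
* `Z(2πs)² F(1 + s) → V · #ker φ / [A'(ℚ) : φ(A(ℚ))]` as `s → 0+`;
* `exp (S_c(Y)) / N(Y)² → e^{-rΛ(c)} [A'(ℚ) : φ(A(ℚ))] / (2^r V_r² V #ker φ)` as `Y → ∞`, for some, or for
  all `c > π/2`, where `V_r` is the volume of the unit ball of `ℝ^r` and

  `S_c(Y) = ∑_{p ∉ S, p^k ≤ e^Y} -tr(Frob_p^k) / (k p^k) · exp (icu) / Γ(1 + u)`, `u = k log p / log Y`,

  is a finite sum over the prime powers.

The formula of the problem is the first statement with `V = #Ш(A) V_∞ V_bad`. For a principal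
polarisation (`A'(ℚ) = A(ℚ)`) the second statement becomes `Z(2πs)² L(A, 1 + s) → V`: the rank, the
regulator and both torsion groups are absorbed by the Dirichlet series of the heights of the rational
points. In the third form both sides are finite computations for every `Y`.

What is used about `A` is stated in the hypotheses: `A(ℚ)` and `A'(ℚ)` are finitely generated (Mordell,
Weil), the pairing is bilinear, `⟨P, φ(Q)⟩ = ⟨Q, φ(P)⟩`, `2 h(P) = ⟨P, φ(P)⟩ + O(1)` (Néron, Tate), and the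
theorem of Weil on the numbers of points of the reductions (`IsLocalPoly`).

Proof. By Northcott's theorem `⟨P, φ(P)⟩` is positive definite modulo torsion, its Gram determinant is
`R_A` times the determinant `D` of `φ` modulo torsion, and `D · #A'(ℚ)_tors · #ker φ =
[A'(ℚ) : φ(A(ℚ))] · #A(ℚ)_tors`. The count of lattice points in ellipsoids and an Abelian theorem
(imported) give the asymptotics of `N` and `Z`. The rotated law for general Euler products (imported, a
run-time module of helper652) gives `exp (S) ~ (log Y)^m e^{-mΛ} / l` for the sums over all prime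
powers, `m` and `l` the order and the leading coefficient; the truncation to `p^k ≤ e^Y` changes the sums
by `o(1)`.
-/

set_option autoImplicit false

namespace Pool.Agent.Results.MP_dfae13_nt.LeadingTermLaw

open Filter Topology Classical Polynomial
open scoped LinearAlgebra.Projectivization

section

variable {n : ℕ}

/-- The number of the nonzero solutions of the equations `X` with coordinates in the finite field `κ`.
For homogeneous equations it is `#κ - 1` times the number of points over `κ` of the projective scheme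
defined by `X`. -/
noncomputable def solutions (X : Set (MvPolynomial (Fin n) ℤ)) (κ : Type) [Field κ] : ℕ :=
  Nat.card {u : Fin n → κ // u ≠ 0 ∧ ∀ f ∈ X, MvPolynomial.aeval u f = 0}

/-- `P` is the polynomial `P_p(T) = ∏ (1 - α_j T)` of the reduction at `p` of the abelian variety of
dimension `d` with the equations `X` (theorem of Weil): the `2d` complex numbers `α_j` have the absolute
value `√p`, and for every finite field `κ` of characteristic `p` and degree `e` the number of points over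
`κ` is `∏ (1 - α_j ^ e)`. -/
def IsLocalPoly (X : Set (MvPolynomial (Fin n) ℤ)) (d p : ℕ) (P : ℤ[X]) : Prop :=
  ∃ α : Fin (2 * d) → ℂ, (∀ j, ‖α j‖ = √ (p : ℝ)) ∧
    (∀ z : ℂ, Polynomial.aeval z P = ∏ j, (1 - α j * z)) ∧
    ∀ (κ : Type) [Field κ] [Finite κ] [CharP κ p] (e : ℕ), Nat.card κ = p ^ e →
      (solutions X κ : ℂ) = ((p : ℂ) ^ e - 1) * ∏ j, (1 - α j ^ e)

/-- `L(A, s) = ∏_{p ∉ S} P_p(p^{-s})⁻¹`. -/
noncomputable def LFunction (S : Finset ℕ) (P : ℕ → ℤ[X]) (s : ℂ) : ℂ :=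
  ∏' p : {p : ℕ // p.Prime ∧ p ∉ S}, (Polynomial.aeval ((p.1 : ℂ) ^ (-s)) (P p.1))⁻¹

/-- The trace of the `k`-th power of Frobenius on `H^1`: the sum of the `k`-th powers of the inverses of
the complex roots of `P_p`. -/
noncomputable def frobTrace (P : ℤ[X]) (k : ℕ) : ℂ :=
  ((P.map (Int.castRingHom ℂ)).roots.map fun ρ => ρ⁻¹ ^ k).sum

/-- The term of `S_c(Y)` for the prime `p = x.1` and the exponent `k = x.2`, `T = log Y`. -/
noncomputable def term (P : ℕ → ℤ[X]) (c T : ℝ) (x : ℕ × ℕ) : ℂ :=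
  -frobTrace (P x.1) x.2 / (x.2 * (x.1 : ℂ) ^ x.2 *
    (Real.Gamma (1 + x.2 * Real.log x.1 / T) : ℝ)) *
    Complex.exp ((c * (x.2 * Real.log x.1 / T) : ℝ) * Complex.I)

/-- `S_c(Y)`: the finite sum over the prime powers `p^k ≤ e^Y`, `k ≥ 1`, `p` outside `S`. -/
noncomputable def rotSum (S : Finset ℕ) (P : ℕ → ℤ[X]) (c Y : ℝ) : ℂ :=
  ∑ᶠ x ∈ {x : ℕ × ℕ | x.1.Prime ∧ x.1 ∉ S ∧ 1 ≤ x.2 ∧ (x.1 : ℝ) ^ x.2 ≤ Real.exp Y},
    term P c (Real.log Y) x

/-- `Λ(c) = ∫_0^∞ (e^{-t} - e^{ict} / Γ(1 + t)) dt / t`. -/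
noncomputable def Lam (c : ℝ) : ℂ := ∫ t in Set.Ioi (0 : ℝ),
  (Complex.exp (-(t : ℂ)) - Complex.exp ((c * t : ℝ) * Complex.I) *
    ((Real.Gamma (1 + t))⁻¹ : ℝ)) / t

/-- The set `A(ℚ)` of the rational points. -/
def points (X : Set (MvPolynomial (Fin n) ℤ)) : Set (ℙ ℚ (Fin n → ℚ)) :=
  {x | ∀ f ∈ X, MvPolynomial.aeval x.rep f = 0}

/-- `Z(s)`: the sum over all rational points of `e^{-s h(x)}`, `h` the logarithmic height. -/
noncomputable def heightZeta (X : Set (MvPolynomial (Fin n) ℤ)) (s : ℝ) : ℝ :=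
  ∑' x : points X, Real.exp (-(s * x.1.logHeight))

/-- `N(Y)`: the number of the rational points with `h(x) ≤ log Y`. -/
noncomputable def pointsUpTo (X : Set (MvPolynomial (Fin n) ℤ)) (Y : ℝ) : ℕ :=
  Nat.card {x : points X // x.1.logHeight ≤ Real.log Y}

end

/-- `a_1, …, a_r` is a basis of the abelian group `A` modulo torsion. -/
def IsBasis {A : Type} [AddCommGroup A] {r : ℕ} (a : Fin r → A) : Prop :=
  ∀ P : A, ∃! n : Fin r → ℤ, IsOfFinAddOrder (P - ∑ i, n i • a i)

/-- The number of torsion elements. -/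
noncomputable def tors (A : Type) [AddCommGroup A] : ℕ := Nat.card {t : A // IsOfFinAddOrder t}

/-- The regulator `R_A = |det ⟨a_i, a'_j⟩|`. -/
noncomputable def regulator {A A' : Type} [AddCommGroup A] [AddCommGroup A'] {r : ℕ}
    (pair : A →+ A' →+ ℝ) (a : Fin r → A) (a' : Fin r → A') : ℝ :=
  |Matrix.det (Matrix.of fun i j => pair (a i) (a' j))|

/-- The volume of the unit ball of `ℝ^r`. -/
noncomputable def ballVol (r : ℕ) : ℝ := √Real.pi ^ r / Real.Gamma (r / 2 + 1)

/-- the real polynomials of the primes outside `S` -/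
noncomputable def realPoly (S : Finset ℕ) (P : ℕ → ℤ[X]) (p : TH129.AVC.Pr S) : ℝ[X] :=
  (P p.1).map (Int.castRingHom ℝ)

theorem realPoly_map (S : Finset ℕ) (P : ℕ → ℤ[X]) (p : TH129.AVC.Pr S) :
    (realPoly S P p).map (algebraMap ℝ ℂ) = (P p.1).map (Int.castRingHom ℂ) := by
  unfold realPoly
  rw [Polynomial.map_map]
  congr 1

theorem realPoly_eval (S : Finset ℕ) (P : ℕ → ℤ[X]) (p : TH129.AVC.Pr S) (z : ℂ) :
    ((realPoly S P p).map (algebraMap ℝ ℂ)).eval z = Polynomial.aeval z (P p.1) := by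
  rw [realPoly_map, Polynomial.eval_map, Polynomial.aeval_def]
  rfl

theorem wt1 {n d : ℕ} {X : Set (MvPolynomial (Fin n) ℤ)} {S : Finset ℕ} {P : ℕ → ℤ[X]}
    (hP : ∀ p : ℕ, p.Prime → p ∉ S → IsLocalPoly X d p (P p)) :
    TH129.AVC.Wt1 S (realPoly S P) (2 * d) where
  const := fun p => by
    obtain ⟨α, -, h2, -⟩ := hP p.1 p.2.1 p.2.2
    have h3 := h2 0
    have h4 : (((realPoly S P p).map (algebraMap ℝ ℂ)).coeff 0) = 1 := by
      rw [Polynomial.coeff_zero_eq_eval_zero, realPoly_eval, h3]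
      simp
    rw [Polynomial.coeff_map] at h4
    have h5 : (((realPoly S P p).coeff 0 : ℝ) : ℂ) = 1 := h4
    exact_mod_cast h5
  deg := fun p => by
    obtain ⟨α, -, h2, -⟩ := hP p.1 p.2.1 p.2.2
    exact TH652.COL.good_deg (B := realPoly S P p) (α := α) fun z => by
      rw [realPoly_eval, h2]
  root := fun p ρ hρ => by
    obtain ⟨α, h1, h2, -⟩ := hP p.1 p.2.1 p.2.2
    have h3 : ∏ j, (1 - α j * ρ) = 0 := by
      rw [← h2, ← realPoly_eval S P p]
      exact hρ
    obtain ⟨j, -, hj⟩ := Finset.prod_eq_zero_iff.1 h3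
    have h4 : α j * ρ = 1 := (sub_eq_zero.1 hj).symm
    have h5 : ‖α j‖ * ‖ρ‖ = 1 := by rw [← norm_mul, h4, norm_one]
    have hq : 0 < TH129.AVC.qr S p := by linarith [TH129.AVC.qr_two_le p]
    have hs : 0 < √ (TH129.AVC.qr S p) := Real.sqrt_pos.2 hq
    have h6 : ‖α j‖ = √ (TH129.AVC.qr S p) := h1 j
    rw [h6] at h5
    rw [inv_eq_one_div, div_le_iff₀ hs, mul_comm]
    exact h5.ge

theorem LFunction_eq (S : Finset ℕ) (P : ℕ → ℤ[X]) (s : ℂ) :
    LFunction S P s = TH652.COL.LF (TH129.AVC.qr S) (realPoly S P) s := by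
  unfold LFunction TH652.COL.LF
  refine tprod_congr fun p => ?_
  rw [realPoly_eval]
  unfold TH129.AVC.qr
  push_cast
  rfl

theorem term_eq (S : Finset ℕ) (P : ℕ → ℤ[X]) (c T : ℝ) (x : TH129.AVC.Pr S × ℕ) :
    TH652.COL.lterm (TH129.AVC.qr S) (realPoly S P) 1 c T x = term P c T (x.1.1, x.2 + 1) := by
  unfold TH652.COL.lterm term
  have h1 : (TH652.COL.pw (realPoly S P x.1) (x.2 + 1) : ℂ) = frobTrace (P x.1.1) (x.2 + 1) := by
    rw [TH652.COL.pw_eq, realPoly_map]
    rfl
  have hq : 0 < TH129.AVC.qr S x.1 := by linarith [TH129.AVC.qr_two_le x.1]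
  have h2 : TH129.AVC.qr S x.1 ^ (-(((x.2 : ℝ) + 1) * 1)) = ((x.1.1 : ℝ) ^ (x.2 + 1))⁻¹ := by
    rw [mul_one, Real.rpow_neg hq.le]
    congr 1
    have : ((x.2 : ℝ) + 1) = ((x.2 + 1 : ℕ) : ℝ) := by push_cast; rfl
    rw [this, Real.rpow_natCast]
    rfl
  have h3 : TH129.AVC.qr S x.1 = (x.1.1 : ℝ) := rfl
  rw [h2, h3]
  simp only [Nat.cast_add, Nat.cast_one]
  rw [← h1]
  congr 1
  push_cast
  rw [neg_div]
  congr 1
  rw [← div_eq_mul_inv, div_div]
  congr 1
  ring

theorem rotSum_eq (S : Finset ℕ) (P : ℕ → ℤ[X]) (c Y : ℝ) :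
    rotSum S P c Y = ∑ᶠ x ∈ {x : TH129.AVC.Pr S × ℕ |
      TH129.AVC.qr S x.1 ^ (x.2 + 1) ≤ Real.exp Y},
      TH652.COL.lterm (TH129.AVC.qr S) (realPoly S P) 1 c (Real.log Y) x := by
  unfold rotSum
  symm
  refine finsum_mem_eq_of_bijOn (fun x => (x.1.1, x.2 + 1)) ⟨?_, ?_, ?_⟩ (fun x _ => term_eq S P c _ x)
  · intro x hx
    exact ⟨x.1.2.1, x.1.2.2, Nat.succ_pos _, hx⟩
  · rintro ⟨⟨p, hp⟩, k⟩ _ ⟨⟨p', hp'⟩, k'⟩ _ h
    simp only [Prod.mk.injEq, Nat.add_right_cancel_iff] at h
    obtain ⟨rfl, rfl⟩ := h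
    rfl
  · rintro ⟨p, k⟩ ⟨h1, h2, h3, h4⟩
    obtain ⟨k', rfl⟩ : ∃ k', k = k' + 1 := ⟨k - 1, by omega⟩
    exact ⟨(⟨p, h1, h2⟩, k'), h4, rfl⟩

/-- **The leading-term formula for abelian varieties without rank, regulator and torsion.** -/
theorem result (n d : ℕ) (X : Set (MvPolynomial (Fin n) ℤ)) (S : Finset ℕ) (P : ℕ → ℤ[X])
    (hP : ∀ p : ℕ, p.Prime → p ∉ S → IsLocalPoly X d p (P p))
    (A A' : Type) [AddCommGroup A] [AddCommGroup A'] (hA : AddGroup.FG A) (hA' : AddGroup.FG A')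
    (e : A ≃ points X) (pair : A →+ A' →+ ℝ) (φ : A →+ A')
    (hsym : ∀ x y : A, pair x (φ y) = pair y (φ x))
    (hht : ∃ C : ℝ, ∀ x : A, |2 * (e x).1.logHeight - pair x (φ x)| ≤ C)
    (r : ℕ) (a : Fin r → A) (a' : Fin r → A') (ha : IsBasis a) (ha' : IsBasis a')
    (F : ℂ → ℂ) (hmer : ∀ x : ℝ, 1 ≤ x → MeromorphicAt F (x : ℂ)) (σ : ℝ)
    (hF : ∀ s : ℂ, σ < s.re → F s = LFunction S P s) :
    (∀ s : ℝ, 0 < s → Summable fun x : points X => Real.exp (-(s * x.1.logHeight))) ∧
    0 < regulator pair a a' ∧ 0 < Nat.card φ.ker ∧ φ.range.index ≠ 0 ∧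
    ∀ V : ℝ, 0 < V → List.TFAE [
      Tendsto (fun s : ℂ => F s / (s - 1) ^ r) (𝓝[≠] 1)
        (𝓝 ((V * regulator pair a a' / (tors A * tors A') : ℝ) : ℂ)),
      Tendsto (fun s : ℝ => (heightZeta X (2 * Real.pi * s) : ℂ) ^ 2 * F (1 + s)) (𝓝[>] 0)
        (𝓝 ((V * Nat.card φ.ker / φ.range.index : ℝ) : ℂ)),
      ∃ c : ℝ, Real.pi / 2 < c ∧
        Tendsto (fun Y : ℝ => Complex.exp (rotSum S P c Y) / (pointsUpTo X Y : ℂ) ^ 2) atTop
          (𝓝 (Complex.exp (-(r * Lam c)) /
            (2 ^ r * ballVol r ^ 2 * (V * Nat.card φ.ker / φ.range.index) : ℝ))),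
      ∀ c : ℝ, Real.pi / 2 < c →
        Tendsto (fun Y : ℝ => Complex.exp (rotSum S P c Y) / (pointsUpTo X Y : ℂ) ^ 2) atTop
          (𝓝 (Complex.exp (-(r * Lam c)) /
            (2 ^ r * ballVol r ^ 2 * (V * Nat.card φ.ker / φ.range.index) : ℝ)))] := by
  -- the heights
  set h : A → ℝ := fun x => (e x).1.logHeight with hhd
  have h0 : ∀ x, 0 ≤ h x := fun x => Projectivization.logHeight_nonneg _
  have hfin : ∀ R : ℝ, {x : A | h x ≤ R}.Finite := by
    intro R
    exact Set.Finite.of_injOn (f := fun x : A => (e x).1) (fun x hx => hx)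
      (fun x _ y _ hxy => e.injective (Subtype.ext hxy))
      (TH129.AVC.northcott_log (ι := Fin n) (K := ℚ) R)
  have hcbl : Countable A := by
    have h1 : (Set.univ : Set A) = ⋃ k : ℕ, {x | h x ≤ k} := by
      ext x
      simp only [Set.mem_univ, Set.mem_iUnion, Set.mem_ofPred_eq, true_iff]
      exact exists_nat_ge (h x)
    rw [← Set.countable_univ_iff, h1]
    exact Set.countable_iUnion fun k => (hfin k).countable
  obtain ⟨C, hC⟩ := hht
  have hqh : ∀ x, |TH129.AVC.qf pair φ x - h x| ≤ C / 2 := by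
    intro x
    have h1 := hC x
    unfold TH129.AVC.qf
    have h2 : pair x (φ x) / 2 - h x = -(2 * h x - pair x (φ x)) / 2 := by ring
    rw [h2, abs_div, abs_neg, abs_two]
    have : |2 * h x - pair x (φ x)| ≤ C := h1
    linarith
  have hqp := TH129.AVC.qf_par pair φ
  have hq0 := TH129.AVC.qf_nonneg h0 hqh
  obtain ⟨hdet, hlim⟩ := TH942.count_group h (TH129.AVC.qf pair φ) (C / 2) hq0 hqp hqh hfin a ha
  have hdet2 := TH129.AVC.det_gram_qf (g := a) (g' := a') pair φ hsym ha'
  set G : ℝ := (TH942.gram (TH129.AVC.qf pair φ) a).det with hG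
  set M := TH129.AVC.mat a ha' φ with hM
  rw [Fintype.card_fin] at hdet2 hlim
  set D : ℝ := (TH129.AVC.pm pair a a').det with hD
  have hreg : regulator pair a a' = |D| := rfl
  have hMD : D * (M.det : ℝ) ≠ 0 := by
    intro h1
    rw [h1, mul_zero] at hdet2
    exact hdet.ne' hdet2
  have hD0 : D ≠ 0 := left_ne_zero_of_mul hMD
  have hM0 : M.det ≠ 0 := by
    have := right_ne_zero_of_mul hMD
    exact_mod_cast this
  have hreg0 : 0 < regulator pair a a' := by
    rw [hreg]
    exact abs_pos.2 hD0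
  have hGeq : 2 ^ r * G = regulator pair a a' * (M.det.natAbs : ℝ) := by
    have h1 : G = |G| := (abs_of_pos hdet).symm
    have h2 : (M.det.natAbs : ℝ) = |(M.det : ℝ)| := by
      rw [Nat.cast_natAbs]
      push_cast
      rfl
    rw [h1, hdet2, hreg, h2, abs_mul, abs_mul, abs_of_pos (by positivity : (0 : ℝ) < 2⁻¹ ^ r),
      ← mul_assoc, ← mul_pow]
    norm_num
  -- torsion, kernel, index
  have hTf : Finite (AddCommGroup.torsion A) := TH129.AVC.torsion_finite hA
  have hTf' : Finite (AddCommGroup.torsion A') := TH129.AVC.torsion_finite hA'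
  have hT0 : 0 < tors A := by
    have h1 : tors A = Nat.card (AddCommGroup.torsion A) := rfl
    rw [h1]
    exact Nat.card_pos
  have hT0' : 0 < tors A' := by
    have h1 : tors A' = Nat.card (AddCommGroup.torsion A') := rfl
    rw [h1]
    exact Nat.card_pos
  have hker : 0 < Nat.card φ.ker := by
    have h1 : Finite φ.ker := by
      refine ((hfin (C / 2)).subset (t := {x | x ∈ φ.ker}) fun x hx => ?_).to_subtype
      have hx' : φ x = 0 := hx
      have h2 := hqh x
      unfold TH129.AVC.qf at h2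
      rw [hx', map_zero, zero_div] at h2
      have h3 := abs_le.1 h2
      show h x ≤ C / 2
      linarith [h3.1]
    exact Nat.card_pos
  have hform : φ.range.index * tors A = M.det.natAbs * tors A' * Nat.card φ.ker :=
    TH129.AVC.index_formula ha ha' φ hM0 hTf
  have hMn : 0 < M.det.natAbs := Int.natAbs_pos.2 hM0
  have hidx : φ.range.index ≠ 0 := by
    intro h1
    rw [h1, zero_mul] at hform
    have : 0 < M.det.natAbs * tors A' * Nat.card φ.ker := by positivity
    omega
  -- real versions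
  have rT : (0 : ℝ) < tors A := by exact_mod_cast hT0
  have rT' : (0 : ℝ) < tors A' := by exact_mod_cast hT0'
  have rk : (0 : ℝ) < Nat.card φ.ker := by exact_mod_cast hker
  have ri : (0 : ℝ) < φ.range.index := by exact_mod_cast Nat.pos_of_ne_zero hidx
  have rM : (0 : ℝ) < M.det.natAbs := by exact_mod_cast hMn
  have rform : (φ.range.index : ℝ) * tors A = M.det.natAbs * tors A' * Nat.card φ.ker := by
    exact_mod_cast hform
  have hV : 0 < ballVol r := TH942.ballVol_pos r
  have hsG : 0 < √G := Real.sqrt_pos.2 hdet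
  set κ : ℝ := tors A * ballVol r / √G with hκ
  have hκ0 : 0 < κ := by positivity
  have hκ2 : κ ^ 2 = tors A ^ 2 * ballVol r ^ 2 / G := by
    rw [hκ, div_pow, mul_pow, Real.sq_sqrt hdet.le]
  have hlim' : Tendsto (fun R : ℝ => TH942.cnt h R / R ^ ((r : ℝ) / 2)) atTop (𝓝 κ) := hlim
  -- transfer to the points
  have hZeq : ∀ s : ℝ, heightZeta X s = ∑' x : A, Real.exp (-(s * h x)) := fun s =>
    (e.tsum_eq fun x : points X => Real.exp (-(s * x.1.logHeight))).symm
  have hNeq : ∀ Y : ℝ, (TH942.cnt h (Real.log Y) : ℂ) = (pointsUpTo X Y : ℂ) := by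
    intro Y
    unfold TH942.cnt pointsUpTo
    rw [Complex.ofReal_natCast]
    congr 1
    exact Nat.card_congr (e.subtypeEquiv fun x => Iff.rfl)
  refine ⟨?_, hreg0, hker, hidx, ?_⟩
  · intro s hs
    have h1 := (TH942.zeta_main h0 hfin (by positivity) hlim').1 s hs
    exact (e.summable_iff (f := fun x : points X => Real.exp (-(s * x.1.logHeight)))).1 h1
  intro V hVp
  -- the L-function
  have hw := wt1 hP
  have E := hw.ldata
  have hF' : ∀ s : ℂ, σ < s.re → F s = TH652.COL.LF (TH129.AVC.qr S) (realPoly S P) s := by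
    intro s hs
    rw [hF s hs, LFunction_eq]
  obtain ⟨m, hm, hc, -⟩ := TH129.AVC.exp_lim E hmer hF'
    (show Real.pi / 2 < Real.pi by linarith [Real.pi_pos])
  rw [Complex.ofReal_one] at hm hc
  have hF1 : MeromorphicAt F 1 := by
    have := hmer 1 le_rfl
    simpa using this
  set l : ℝ := V * regulator pair a a' / (tors A * tors A') with hl
  have hl0 : 0 < l := by positivity
  have hlc : (l : ℂ) ≠ 0 := by exact_mod_cast hl0.ne'
  have hS : ∀ c : ℝ, Real.pi / 2 < c →
      ((meromorphicOrderAt F 1 = ((r : ℤ) : WithTop ℤ) ∧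
        meromorphicTrailingCoeffAt F 1 = (l : ℂ)) ↔
      Tendsto (fun Y : ℝ => Complex.exp (rotSum S P c Y) / (Real.log Y : ℂ) ^ r) atTop
        (𝓝 (Complex.exp (-(r * W187.UR.Lam c)) / l))) := by
    intro c hc'
    have h1 := TH129.AVC.exp_iff E hmer hF' hc' r hlc
    rw [Complex.ofReal_one] at h1
    rw [h1, ← TH129.NFC.tendsto_log_iff (fun T : ℝ =>
      Complex.exp (TH652.COL.lsum (TH129.AVC.qr S) (realPoly S P) 1 c T) / (T : ℂ) ^ r)]
    have hclose : Tendsto (fun Y : ℝ => Complex.exp (TH652.COL.lsum (TH129.AVC.qr S)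
        (realPoly S P) 1 c (Real.log Y) - rotSum S P c Y)) atTop (𝓝 1) := by
      have h2 := TH129.AVC.lsum_fin hw.cdata TH129.AVC.qr_finite c
      have h3 := (Complex.continuous_exp.tendsto 0).comp h2
      rw [Complex.exp_zero] at h3
      refine h3.congr fun Y => ?_
      simp only [Function.comp_apply]
      rw [rotSum_eq]
    constructor
    · intro h2
      have h3 := h2.div hclose one_ne_zero
      rw [div_one] at h3
      refine h3.congr fun Y => ?_
      simp only [Pi.div_apply]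
      rw [Complex.exp_sub]
      have h4 := Complex.exp_ne_zero (rotSum S P c Y)
      have h5 := Complex.exp_ne_zero (TH652.COL.lsum (TH129.AVC.qr S) (realPoly S P) 1 c
        (Real.log Y))
      field_simp
    · intro h2
      have h3 := h2.mul hclose
      rw [mul_one] at h3
      refine h3.congr fun Y => ?_
      rw [Complex.exp_sub]
      have h4 := Complex.exp_ne_zero (rotSum S P c Y)
      field_simp
  have hmain := TH129.AVC.lead_tfae h0 hfin hκ0 hlim' hF1 hm hc (rotSum S P) hl0 hS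
    (show 0 < 2 * Real.pi by positivity)
  -- the constants
  have hcr : tors A ^ 2 / G * l = 2 ^ r * (V * Nat.card φ.ker / φ.range.index) := by
    have h1 : G = regulator pair a a' * (M.det.natAbs : ℝ) / 2 ^ r := by
      rw [← hGeq]
      field_simp
    have h2 : (Nat.card φ.ker : ℝ) / φ.range.index = tors A / (M.det.natAbs * tors A') := by
      rw [div_eq_div_iff ri.ne' (by positivity)]
      linarith [rform]
    rw [h1, hl, mul_div_assoc V (Nat.card φ.ker : ℝ), h2]
    have := hreg0.ne'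
    field_simp
  have hc1 : (κ * Real.Gamma ((r : ℝ) / 2 + 1)) ^ 2 / (2 * Real.pi) ^ r * l =
      V * Nat.card φ.ker / φ.range.index := by
    have hpi := Real.pi_pos
    have hΓ : 0 < Real.Gamma ((r : ℝ) / 2 + 1) := Real.Gamma_pos_of_pos (by positivity)
    have h1 : (ballVol r * Real.Gamma ((r : ℝ) / 2 + 1)) ^ 2 = Real.pi ^ r := by
      unfold ballVol
      rw [div_mul_cancel₀ _ hΓ.ne', ← pow_mul, mul_comm, pow_mul, Real.sq_sqrt hpi.le]
    have h2 : (κ * Real.Gamma ((r : ℝ) / 2 + 1)) ^ 2 = tors A ^ 2 / G * Real.pi ^ r := by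
      rw [mul_pow, hκ2, ← h1, mul_pow]
      ring
    rw [h2, mul_pow]
    calc tors A ^ 2 / G * Real.pi ^ r / (2 ^ r * Real.pi ^ r) * l =
        (tors A ^ 2 / G * l) / 2 ^ r := by field_simp
      _ = _ := by rw [hcr]; field_simp
  have hc2 : κ ^ 2 * l = 2 ^ r * ballVol r ^ 2 * (V * Nat.card φ.ker / φ.range.index) := by
    rw [hκ2]
    calc tors A ^ 2 * ballVol r ^ 2 / G * l = (tors A ^ 2 / G * l) * ballVol r ^ 2 := by ring
      _ = _ := by rw [hcr]; ring
  rw [hc1, hc2] at hmain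
  simp only [hZeq, ← hNeq]
  exact hmain

end Pool.Agent.Results.MP_dfae13_nt.LeadingTermLaw
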