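import Mathlib
import Pool.Agent.TH841.PT.FamN

/-!
# Tate-Shafarevich groups of twists by norms from a Galois number field

`E : y² = x³ + A x + B` is an elliptic curve with three integer roots and `F` a Galois number field
of degree `n`. For every real `lam > 0` and all `s`, `k` the sum of
`lam ^ ω(d) * (2 ^ rank * #Ш[2 ^ k] ^ (1 / k)) ^ s` over the twists of `E` by the integers
`d ≠ 0`, `N < d ≤ N + M`, such that `|d|` is the norm of a fractional ideal of `F`, is at most
`C M (log M) ^ (lam / n - 1)`, uniformly for `|N| ≤ M ^ L` (`ω(d)` is the number of the primes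
dividing `d`). For `lam = 1` this is the order of magnitude of the number of these `d` with
`|d| ≤ M`.
-/

set_option autoImplicit false

namespace Pool.Agent.Results.MP_dfae13_nt.TwistsByNorms

open Finset nonZeroDivisors

open Pool.Agent.TH841.SH.D (Sha ShaTor HasDiv rk)

/-- the quadratic twist `y² = x³ + d² A x + d³ B` of `y² = x³ + A x + B` over `ℚ` by `d` -/
def Tw (A B d : ℤ) : WeierstrassCurve ℚ := ⟨0, 0, 0, ((d ^ 2 * A : ℤ) : ℚ), ((d ^ 3 * B : ℤ) : ℚ)⟩

open Classical in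
/-- the nonzero integers `d` with `N < d ≤ N + M` such that `|d|` is the norm of a fractional ideal
of the number field `F` -/
noncomputable def Nm (F : Type) [Field F] [NumberField F] (N : ℤ) (M : ℕ) : Finset ℤ :=
  (Ioc N (N + M)).filter (fun d => d ≠ 0 ∧
    ∃ I : FractionalIdeal (NumberField.RingOfIntegers F)⁰ F,
      FractionalIdeal.absNorm I = (d.natAbs : ℚ))

/-- the number of the primes dividing `d` -/
def om (d : ℤ) : ℕ := d.natAbs.primeFactors.card

open Classical in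
/-- **Theorem.** Let `y² = (x - e₁) (x - e₂) (x - e₃) = x³ + A x + B` be an elliptic curve with
integers `e₁`, `e₂`, `e₃`, `F` a Galois number field of degree `n` and `W_d` the quadratic twist of
the curve by `d`. For all real `lam > 0` and all `s` and `L` there is `C` such that for all integers
`M ≥ 2` and `|N| ≤ M ^ L` and the `d ≠ 0` with `N < d ≤ N + M` such that `|d|` is the norm of a
fractional ideal of `F`: the groups `Ш(W_d)[2 ^ k]` are finite, the sum of
`lam ^ ω(d) * (2 ^ rank * #Ш(W_d)[2 ^ k] ^ (1 / k)) ^ s` is at most `C M (log M) ^ (lam / n - 1)` for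
all `k ≥ 1`, and at most `C M / ((log M) ^ ((lam / n) (log lam - 1) + 1) 2 ^ (s (m + q)))` of these
`d` with `ω(d) ≥ (lam / n) log log M` (if `lam ≥ 1`; `ω(d) ≤ (lam / n) log log M` if `lam < 1`) have
a twist `W_d` of rank at least `m` with a subgroup `(ℚ₂ / ℤ₂) ^ q` in the Tate-Shafarevich group. -/
theorem result (A B e₁ e₂ e₃ : ℤ) (hE : 4 * A ^ 3 + 27 * B ^ 2 ≠ 0)
    (he : ∀ x : ℤ, x ^ 3 + A * x + B = (x - e₁) * (x - e₂) * (x - e₃))
    (F : Type) [Field F] [NumberField F] [IsGalois ℚ F] (n : ℕ) (hn : n = Module.finrank ℚ F)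
    (lam : ℝ) (hlam : 0 < lam) (s L : ℕ) :
    ∃ C : ℝ, ∀ (N : ℤ) (M : ℕ), 2 ≤ M → |N| ≤ (M : ℤ) ^ L →
      (∀ d ∈ Nm F N M, ∀ k : ℕ, Finite (ShaTor (Tw A B d) (2 ^ k))) ∧
      (∀ k : ℕ, 1 ≤ k → ∑ d ∈ Nm F N M, lam ^ om d * ((2 : ℝ) ^ rk (Tw A B d) *
          (Nat.card (ShaTor (Tw A B d) (2 ^ k)) : ℝ) ^ ((1 : ℝ) / k)) ^ s ≤
            C * (M * (Real.log M) ^ (lam / n - 1))) ∧
      ∀ m q : ℕ, (((Nm F N M).filter (fun d => m ≤ rk (Tw A B d) ∧ HasDiv (Tw A B d) q ∧
        (1 ≤ lam → lam / n * Real.log (Real.log M) ≤ om d) ∧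
        (lam < 1 → om d ≤ lam / n * Real.log (Real.log M)))).card : ℝ) ≤
          C * (M / (Real.log M) ^ (lam / n * Real.log lam - lam / n + 1)) / 2 ^ (s * (m + q)) := by
  obtain ⟨g, hg, hgn, z, hz⟩ := Pool.Agent.TH841.PT.NRMf.nrm F
  have hn0 : 0 < g.natDegree := by
    rw [hgn]
    exact Module.finrank_pos
  obtain ⟨C, hC⟩ := Pool.Agent.TH841.PT.sha_spl hg hn0 hE he lam hlam z s L
  have hnn : n = g.natDegree := hn.trans hgn.symm
  subst hnn
  refine ⟨C, fun N M hM hN => hC N M hM hN (Nm F N M) fun d hd => ?_⟩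
  obtain ⟨h1, h2, I, hI⟩ := mem_filter.1 hd
  exact ⟨h1, h2, fun p hp hzp hpd hpd2 => hz I d h2 hI p hp hzp hpd hpd2⟩

end Pool.Agent.Results.MP_dfae13_nt.TwistsByNorms
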